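import Mathlib

/-!
# Semigroups of holomorphic self-maps of the disc and their tangential speed
-/

set_option autoImplicit false

open Filter Topology Metric

namespace Pool.Agent.X183.Tang

/-- The hyperbolic distance `(1/2) log ((1+|T|)/(1-|T|))`, `T = (z-w)/(1-z̄w)`, of the disc. -/
noncomputable def omega (z w : ℂ) : ℝ :=
  (1 / 2) * Real.log ((1 + ‖(z - w) / (1 - (starRingEnd ℂ) z * w)‖) /
    (1 - ‖(z - w) / (1 - (starRingEnd ℂ) z * w)‖))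

/-- Non-elliptic semigroups of holomorphic self-maps of the open unit disc. -/
structure IsNonellipticSemigroup (φ : ℝ → ℂ → ℂ) : Prop where
  differentiable : ∀ t, 0 ≤ t → DifferentiableOn ℂ (φ t) (ball 0 1)
  mapsTo : ∀ t, 0 ≤ t → Set.MapsTo (φ t) (ball 0 1) (ball 0 1)
  zero : ∀ z ∈ ball (0 : ℂ) 1, φ 0 z = z
  add : ∀ s t, 0 ≤ s → 0 ≤ t → ∀ z ∈ ball (0 : ℂ) 1, φ (t + s) z = φ t (φ s z)
  continuous : ∀ t₀, 0 ≤ t₀ → ∀ K ⊆ ball (0 : ℂ) 1, IsCompact K →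
    TendstoUniformlyOn φ (φ t₀) (𝓝[Set.Ici 0] t₀) K
  nonelliptic : ∀ t, 0 < t → ∀ z ∈ ball (0 : ℂ) 1, φ t z ≠ z

/-- The semigroup is parabolic of positive hyperbolic step: it has a Koenigs function `h` for which
`⋃ (h(𝔻) - it)` is a half-plane `{Re w > c}` or `{Re w < c}`. -/
def IsPositiveStep (φ : ℝ → ℂ → ℂ) : Prop :=
  ∃ h : ℂ → ℂ, DifferentiableOn ℂ h (ball 0 1) ∧ Set.InjOn h (ball 0 1) ∧
    (∀ t, 0 ≤ t → ∀ z ∈ ball (0 : ℂ) 1, h (φ t z) = h z + Complex.I * t) ∧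
    ∃ c : ℝ, {w : ℂ | ∃ t : ℝ, 0 ≤ t ∧ w + Complex.I * t ∈ h '' ball 0 1} = {w | c < w.re} ∨
      {w : ℂ | ∃ t : ℝ, 0 ≤ t ∧ w + Complex.I * t ∈ h '' ball 0 1} = {w | w.re < c}

/-- `τ` is the Denjoy-Wolff point. -/
def IsDenjoyWolff (φ : ℝ → ℂ → ℂ) (τ : ℂ) : Prop :=
  ‖τ‖ = 1 ∧ ∀ z ∈ ball (0 : ℂ) 1, Tendsto (fun t => φ t z) atTop (𝓝 τ)

/-- The tangential speed: the hyperbolic distance of `φ_t(0)` from the diameter `(-1,1)τ`, that is,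
from its hyperbolic orthogonal projection onto this diameter. -/
noncomputable def tangentialSpeed (φ : ℝ → ℂ → ℂ) (τ : ℂ) (t : ℝ) : ℝ :=
  ⨅ r : Set.Ioo (-1 : ℝ) 1, omega ((r : ℝ) * τ) (φ t 0)

end Pool.Agent.X183.Tang
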