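import Pool.Agent.X183.Tang.Half

/-!
# The semigroup in the disc
-/

set_option autoImplicit false

open Filter Topology Metric Complex

namespace Pool.Agent.X183.Tang

/-- The Cayley transform. -/
noncomputable def C (z : ℂ) : ℂ := (1 + z) / (1 - z)

/-- The inverse Cayley transform. -/
noncomputable def Ci (η : ℂ) : ℂ := (η - 1) / (η + 1)

theorem one_sub_ne {z : ℂ} (hz : ‖z‖ < 1) : (1 - z : ℂ) ≠ 0 := by
  intro h
  have : z = 1 := (sub_eq_zero.1 h).symm
  rw [this, norm_one] at hz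
  exact lt_irrefl _ hz

theorem add_one_ne {η : ℂ} (hη : 0 < η.re) : (η + 1 : ℂ) ≠ 0 := by
  intro h
  have h1 := congrArg Complex.re h
  simp at h1
  linarith

theorem C_re {z : ℂ} (hz : ‖z‖ < 1) : 0 < (C z).re := by
  unfold C
  rw [Complex.div_re, ← add_div]
  apply div_pos _ (Complex.normSq_pos.2 (one_sub_ne hz))
  have h1 : z.re ^ 2 + z.im ^ 2 < 1 := by
    have h2 : ‖z‖ ^ 2 < 1 := by nlinarith [norm_nonneg z]
    rw [← Complex.normSq_eq_norm_sq, Complex.normSq_apply] at h2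
    nlinarith
  simp
  nlinarith

theorem Ci_norm {η : ℂ} (hη : 0 < η.re) : ‖Ci η‖ < 1 := by
  unfold Ci
  rw [norm_div, div_lt_one (norm_pos_iff.2 (add_one_ne hη))]
  refine lt_of_pow_lt_pow_left₀ 2 (norm_nonneg _) ?_
  rw [← Complex.normSq_eq_norm_sq, ← Complex.normSq_eq_norm_sq, Complex.normSq_apply,
    Complex.normSq_apply]
  simp
  nlinarith

theorem C_Ci {η : ℂ} (hη : 0 < η.re) : C (Ci η) = η := by
  unfold C Ci
  have h := add_one_ne hη
  have h1 : 1 + (η - 1) / (η + 1) = 2 * η / (η + 1) := by field_simp; ring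
  have h2 : 1 - (η - 1) / (η + 1) = 2 / (η + 1) := by field_simp; ring
  rw [h1, h2, div_div_div_cancel_right₀ h]
  field_simp

theorem Ci_C {z : ℂ} (hz : ‖z‖ < 1) : Ci (C z) = z := by
  unfold C Ci
  have h := one_sub_ne hz
  have h1 : (1 + z) / (1 - z) - 1 = 2 * z / (1 - z) := by field_simp; ring
  have h2 : (1 + z) / (1 - z) + 1 = 2 / (1 - z) := by field_simp; ring
  rw [h1, h2, div_div_div_cancel_right₀ h]
  field_simp

theorem differentiableAt_C {z : ℂ} (hz : ‖z‖ < 1) : DifferentiableAt ℂ C z := by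
  unfold C
  exact DifferentiableAt.div (by fun_prop) (by fun_prop) (one_sub_ne hz)

theorem differentiableAt_Ci {η : ℂ} (hη : 0 < η.re) : DifferentiableAt ℂ Ci η := by
  unfold Ci
  exact DifferentiableAt.div (by fun_prop) (by fun_prop) (add_one_ne hη)

/-- The semigroup in the disc. -/
noncomputable def φ (t : ℝ) (z : ℂ) : ℂ := Ci (ψ t (C z))

theorem continuousAt_φ {t : ℝ} (ht : 0 ≤ t) {z : ℂ} (hz : ‖z‖ < 1) :
    ContinuousAt (fun p : ℝ × ℂ => φ p.1 p.2) (t, z) := by
  unfold φ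
  have h1 : ContinuousAt (fun p : ℝ × ℂ => (p.1, C p.2)) (t, z) := by
    refine continuousAt_fst.prodMk ?_
    exact ContinuousAt.comp (f := fun p : ℝ × ℂ => p.2) (g := C)
      (differentiableAt_C hz).continuousAt continuousAt_snd
  have h2 : ContinuousAt (fun p : ℝ × ℂ => ψ p.1 (C p.2)) (t, z) :=
    ContinuousAt.comp (f := fun p : ℝ × ℂ => (p.1, C p.2)) (g := fun p : ℝ × ℂ => ψ p.1 p.2)
      (continuousAt_ψ (C_re hz)) h1
  exact ContinuousAt.comp (f := fun p : ℝ × ℂ => ψ p.1 (C p.2)) (g := Ci)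
    (differentiableAt_Ci (ψ_re ht (C_re hz))).continuousAt h2

theorem isSemigroup : IsNonellipticSemigroup φ where
  differentiable t ht z hz := by
    rw [mem_ball_zero_iff] at hz
    exact (((differentiableAt_Ci (ψ_re ht (C_re hz))).comp z
      ((differentiableAt_ψ (C_re hz)).comp z (differentiableAt_C hz)))).differentiableWithinAt
  mapsTo t ht z hz := by
    rw [mem_ball_zero_iff] at hz ⊢
    exact Ci_norm (ψ_re ht (C_re hz))
  zero z hz := by
    rw [mem_ball_zero_iff] at hz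
    unfold φ
    rw [ψ_zero (C_re hz), Ci_C hz]
  add s t hs ht z hz := by
    rw [mem_ball_zero_iff] at hz
    unfold φ
    rw [C_Ci (ψ_re hs (C_re hz)), ψ_add hs (C_re hz)]
  continuous t₀ ht₀ K hK hKc := by
    rw [Metric.tendstoUniformlyOn_iff]
    intro ε hε
    have h : ∀ᶠ t in 𝓝 t₀, ∀ z ∈ K, dist (φ t₀ z) (φ t z) < ε := by
      refine hKc.eventually_forall_of_forall_eventually (fun z hz => ?_)
      have hz' : ‖z‖ < 1 := mem_ball_zero_iff.1 (hK hz)
      have h1 := continuousAt_φ ht₀ hz'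
      have h2 : ContinuousAt (fun p : ℝ × ℂ => φ t₀ p.2) (t₀, z) :=
        ContinuousAt.comp (f := fun p : ℝ × ℂ => (t₀, p.2)) (g := fun p : ℝ × ℂ => φ p.1 p.2)
          h1 (continuousAt_const.prodMk continuousAt_snd)
      have h3 := Filter.Tendsto.dist h2 h1
      simp only [dist_self] at h3
      exact h3.eventually_lt_const hε
    exact nhdsWithin_le_nhds h
  nonelliptic t ht z hz := by
    rw [mem_ball_zero_iff] at hz
    intro h
    have h1 : ψ t (C z) = C z := by
      rw [← C_Ci (ψ_re ht.le (C_re hz))]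
      exact congrArg C h
    have h2 := h0_ψ ht.le (C_re hz)
    rw [h1] at h2
    have h3 : I * (t : ℂ) = 0 := by linear_combination -h2
    rcases mul_eq_zero.1 h3 with h4 | h4
    · exact I_ne_zero h4
    · exact ht.ne' (by exact_mod_cast h4)

theorem isPositiveStep : IsPositiveStep φ := by
  refine ⟨fun z => h0 (C z), ?_, ?_, ?_, 0, Or.inl ?_⟩
  · intro z hz
    rw [mem_ball_zero_iff] at hz
    have h1 : DifferentiableAt ℂ h0 (C z) := by
      unfold h0
      exact ((differentiableAt_A (C_re hz)).pow 2).const_mul _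
    exact (h1.comp z (differentiableAt_C hz)).differentiableWithinAt
  · intro z hz w hw h
    rw [mem_ball_zero_iff] at hz hw
    have h1 := h0_inj (C_re hz) (C_re hw) h
    rw [← Ci_C hz, ← Ci_C hw, h1]
  · intro t ht z hz
    rw [mem_ball_zero_iff] at hz
    simp only [φ]
    rw [C_Ci (ψ_re ht (C_re hz)), h0_ψ ht (C_re hz)]
  · ext w
    constructor
    · rintro ⟨t, _, z, hz, h⟩
      rw [mem_ball_zero_iff] at hz
      have h1 := h0_re (C_re hz)
      have h2 := congrArg Complex.re h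
      simp only [add_re, mul_re, I_re, I_im, ofReal_re, ofReal_im] at h2
      rw [h1] at h2
      have h3 := A_re (C_re hz)
      have h4 := (A_im (C_re hz)).2
      change 0 < w.re
      nlinarith
    · intro hw
      change 0 < w.re at hw
      -- choose t
      set M := w.re + 2 * Real.exp 1 * Real.pi / w.re with hM
      have hpi := Real.pi_pos
      have he := Real.exp_pos 1
      have hM0 : 0 < M := by positivity
      set t := |w.im| + M ^ 2 with ht
      have ht0 : 0 ≤ t := by positivity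
      set S' : ℂ := -2 * I * w + 2 * t with hS'
      have hSim : S'.im = -2 * w.re := by
        rw [hS']; simp
      have hSre : S'.re = 2 * w.im + 2 * t := by
        rw [hS']; simp
      have hSneg : S'.im < 0 := by rw [hSim]; linarith
      have hS0 : S' ≠ 0 := by
        intro h; rw [h] at hSneg; simp at hSneg
      set b := rt S' with hb
      have hb2 : b ^ 2 = S' := rt_sq hS0
      have hbre : 0 < b.re := rt_re hSneg
      have hbim : b.im < 0 := rt_im hSneg
      have hmul : b.re * (-b.im) = w.re := by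
        have h := congrArg Complex.im hb2
        rw [hSim] at h
        simp [pow_two] at h
        linarith
      have hdiff : b.re ^ 2 - b.im ^ 2 = 2 * w.im + 2 * t := by
        have h := congrArg Complex.re hb2
        rw [hSre] at h
        simp [pow_two] at h
        linarith
      have hL : M ≤ b.re := by
        have h1 : M ^ 2 ≤ b.re ^ 2 := by
          have := neg_abs_le w.im
          nlinarith [sq_nonneg b.im, sq_nonneg M]
        exact le_of_sq_le_sq h1 hbre.le
      have hMx : w.re ≤ M := by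
        rw [hM]
        have : 0 ≤ 2 * Real.exp 1 * Real.pi / w.re := by positivity
        linarith
      have hδ1 : -b.im ≤ 1 := by
        by_contra hcon
        push Not at hcon
        nlinarith
      have hδ2 : -b.im ≤ Real.pi / 2 := by linarith [Real.pi_gt_three]
      have h5 := exp_sin_lower hbre hw hmul hδ2
      have h6 : 2 * Real.exp 1 ≤ w.re / Real.pi * b.re := by
        have h7 : 2 * Real.exp 1 * Real.pi / w.re ≤ b.re := by
          refine le_trans ?_ hL
          rw [hM]; linarith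
        calc 2 * Real.exp 1 = w.re / Real.pi * (2 * Real.exp 1 * Real.pi / w.re) := by
              field_simp
          _ ≤ w.re / Real.pi * b.re := by gcongr
      have hη : 0 < (I * exp b - Real.exp 1).re := by
        rw [re_I_exp]
        linarith
      refine ⟨t, ht0, Ci (I * exp b - Real.exp 1), ?_, ?_⟩
      · rw [mem_ball_zero_iff]; exact Ci_norm hη
      · simp only
        rw [C_Ci hη]
        unfold h0
        rw [A_of_exp (by linarith [Real.pi_gt_three]) hbim, hb2, hS']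
        linear_combination (-w) * I_mul_I

theorem norm_ψ_lower (t : ℝ) (η : ℂ) : Real.exp (B t η).re - Real.exp 1 ≤ ‖ψ t η‖ := by
  unfold ψ
  have h1 := norm_sub_norm_le (I * exp (B t η)) ((Real.exp 1 : ℝ) : ℂ)
  rw [norm_mul, Complex.norm_I, one_mul, Complex.norm_exp, Complex.norm_real,
    Real.norm_of_nonneg (Real.exp_pos 1).le] at h1
  exact h1

theorem norm_ψ_upper (t : ℝ) (η : ℂ) : ‖ψ t η‖ ≤ Real.exp (B t η).re + Real.exp 1 := by
  unfold ψ
  have h1 := norm_sub_le (I * exp (B t η)) ((Real.exp 1 : ℝ) : ℂ)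
  rw [norm_mul, Complex.norm_I, one_mul, Complex.norm_exp, Complex.norm_real,
    Real.norm_of_nonneg (Real.exp_pos 1).le] at h1
  exact h1

theorem tendsto_B {η : ℂ} (hη : 0 < η.re) : Tendsto (fun t => (B t η).re) atTop atTop := by
  have h1 : Tendsto (fun t : ℝ => Real.sqrt (2 * t - Real.pi ^ 2)) atTop atTop := by
    refine Real.tendsto_sqrt_atTop.comp ?_
    exact tendsto_atTop_add_const_right _ _ (tendsto_id.const_mul_atTop (by norm_num))
  refine tendsto_atTop_mono (fun t => ?_) h1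
  rw [Real.sqrt_le_left (B_re hη).le]
  exact B_lower hη

theorem isDenjoyWolff : IsDenjoyWolff φ 1 := by
  refine ⟨norm_one, fun z hz => ?_⟩
  rw [mem_ball_zero_iff] at hz
  have hη := C_re hz
  have h1 : Tendsto (fun t => ‖ψ t (C z)‖) atTop atTop := by
    refine tendsto_atTop_mono (fun t => norm_ψ_lower t (C z)) ?_
    exact tendsto_atTop_add_const_right _ _ (Real.tendsto_exp_atTop.comp (tendsto_B hη))
  have h2 : Tendsto (fun t => ‖ψ t (C z) + 1‖) atTop atTop := by
    refine tendsto_atTop_mono (fun t => ?_) (tendsto_atTop_add_const_right _ (-1) h1)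
    have h := norm_sub_norm_le (ψ t (C z)) (-1)
    rw [norm_neg, norm_one, sub_neg_eq_add] at h
    linarith
  rw [tendsto_iff_norm_sub_tendsto_zero]
  have h3 : Tendsto (fun t => 2 / ‖ψ t (C z) + 1‖) atTop (𝓝 0) := h2.const_div_atTop 2
  refine h3.congr' ?_
  filter_upwards [eventually_ge_atTop 0] with t ht
  have h4 := add_one_ne (ψ_re ht hη)
  have h5 : φ t z - 1 = -2 / (ψ t (C z) + 1) := by
    unfold φ Ci
    field_simp
    ring
  rw [h5, norm_div, norm_neg]
  simp

/-! ### The hyperbolic distance -/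

theorem pseudo_lt {z w : ℂ} (hz : ‖z‖ < 1) (hw : ‖w‖ < 1) :
    ‖(z - w) / (1 - (starRingEnd ℂ) z * w)‖ < 1 := by
  have h0 : (1 - (starRingEnd ℂ) z * w : ℂ) ≠ 0 := by
    intro h
    have h1 : (starRingEnd ℂ) z * w = 1 := (sub_eq_zero.1 h).symm
    have h2 : ‖z‖ * ‖w‖ = 1 := by
      rw [← RCLike.norm_conj z, ← norm_mul, h1, norm_one]
    nlinarith [norm_nonneg z, norm_nonneg w]
  rw [norm_div, div_lt_one (norm_pos_iff.2 h0)]
  refine lt_of_pow_lt_pow_left₀ 2 (norm_nonneg _) ?_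
  have h1 : ‖(1 - (starRingEnd ℂ) z * w : ℂ)‖ ^ 2 - ‖z - w‖ ^ 2 = (1 - ‖z‖ ^ 2) * (1 - ‖w‖ ^ 2) := by
    rw [← Complex.normSq_eq_norm_sq, ← Complex.normSq_eq_norm_sq, ← Complex.normSq_eq_norm_sq,
      ← Complex.normSq_eq_norm_sq, Complex.normSq_apply, Complex.normSq_apply,
      Complex.normSq_apply, Complex.normSq_apply]
    simp
    ring
  have h2 : 0 < (1 - ‖z‖ ^ 2) * (1 - ‖w‖ ^ 2) := by
    apply mul_pos <;> nlinarith [norm_nonneg z, norm_nonneg w]
  linarith

theorem omega_nonneg {z w : ℂ} (hz : ‖z‖ < 1) (hw : ‖w‖ < 1) : 0 ≤ omega z w := by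
  unfold omega
  have h1 := pseudo_lt hz hw
  set T := ‖(z - w) / (1 - (starRingEnd ℂ) z * w)‖
  have hT : 0 ≤ T := norm_nonneg _
  have : 0 ≤ Real.log ((1 + T) / (1 - T)) := by
    apply Real.log_nonneg
    rw [le_div_iff₀ (by linarith)]
    linarith
  linarith

theorem omega_le {η : ℂ} (hη : 0 < η.re) :
    omega (((‖η‖ - 1) / (‖η‖ + 1) : ℝ) : ℂ) (Ci η) ≤ (1 / 2) * Real.log (4 * ‖η‖ / η.re) := by
  have hρ : 0 < ‖η‖ := norm_pos_iff.2 (by intro h; rw [h] at hη; simp at hη)
  have hRρ : η.re ≤ ‖η‖ := Complex.re_le_norm η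
  set ρ := ‖η‖ with hρdef
  have h1 := add_one_ne hη
  have h2 : ((ρ : ℂ) + 1) ≠ 0 := by
    have : (ρ + 1 : ℝ) ≠ 0 := by linarith
    exact_mod_cast this
  have h3 : ((ρ : ℂ) + η) ≠ 0 := by
    intro h
    have := congrArg Complex.re h
    simp at this
    linarith
  have e1 : ((((ρ - 1) / (ρ + 1) : ℝ) : ℂ) - Ci η) /
      (1 - (starRingEnd ℂ) (((ρ - 1) / (ρ + 1) : ℝ) : ℂ) * Ci η) = ((ρ : ℂ) - η) / (ρ + η) := by
    rw [Complex.conj_ofReal]
    unfold Ci
    push_cast
    have e2 : ((ρ : ℂ) - 1) / (ρ + 1) - (η - 1) / (η + 1) = 2 * (ρ - η) / ((ρ + 1) * (η + 1)) := by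
      field_simp; ring
    have e3 : 1 - ((ρ : ℂ) - 1) / (ρ + 1) * ((η - 1) / (η + 1)) =
        2 * (ρ + η) / ((ρ + 1) * (η + 1)) := by
      field_simp; ring
    rw [e2, e3, div_div_div_cancel_right₀ (mul_ne_zero h2 h1)]
    rw [mul_div_mul_left _ _ (by norm_num : (2 : ℂ) ≠ 0)]
  unfold omega
  rw [e1]
  set T := ‖((ρ : ℂ) - η) / (ρ + η)‖ with hT
  have hT0 : 0 ≤ T := norm_nonneg _
  have hsq : T ^ 2 * (ρ + η.re) = ρ - η.re := by
    rw [hT, norm_div, div_pow, ← Complex.normSq_eq_norm_sq, ← Complex.normSq_eq_norm_sq,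
      Complex.normSq_apply, Complex.normSq_apply]
    have hr : ρ ^ 2 = η.re * η.re + η.im * η.im := by
      rw [hρdef, ← Complex.normSq_eq_norm_sq, Complex.normSq_apply]
    simp only [sub_re, ofReal_re, sub_im, ofReal_im, add_re, add_im, zero_sub, zero_add]
    have n1 : (ρ - η.re) * (ρ - η.re) + -η.im * -η.im = 2 * ρ * (ρ - η.re) := by nlinarith
    have n2 : (ρ + η.re) * (ρ + η.re) + η.im * η.im = 2 * ρ * (ρ + η.re) := by nlinarith
    rw [n1, n2]
    have : ρ + η.re ≠ 0 := by linarith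
    field_simp
  have hT1 : T < 1 := by
    by_contra hcon
    push Not at hcon
    have h5 : 1 ≤ T ^ 2 := by nlinarith
    have h6 := mul_le_mul_of_nonneg_right h5 (show 0 ≤ ρ + η.re by linarith)
    linarith
  have hmain : (1 + T) / (1 - T) ≤ 4 * ρ / η.re := by
    rw [div_le_div_iff₀ (by linarith) hη]
    -- (1+T) R ≤ 4 ρ (1 - T)
    have h5 : (1 - T ^ 2) * (ρ + η.re) = 2 * η.re := by linarith
    have h6 : (1 + T) ^ 2 ≤ 4 := by nlinarith
    have h7 : η.re * (1 + T) ^ 2 ≤ 4 * ρ * (1 - T ^ 2) := by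
      have h8 : 2 * η.re ≤ (1 - T ^ 2) * (2 * ρ) := by
        rw [← h5]
        apply mul_le_mul_of_nonneg_left (by linarith)
        nlinarith
      nlinarith
    have h9 : (1 + T) * ((1 + T) * η.re) ≤ (1 + T) * (4 * ρ * (1 - T)) := by nlinarith
    exact le_of_mul_le_mul_left h9 (by linarith)
  have hpos : 0 < (1 + T) / (1 - T) := div_pos (by linarith) (by linarith)
  have := Real.log_le_log hpos hmain
  linarith

theorem speed_le {t : ℝ} (ht : 0 ≤ t) :
    tangentialSpeed φ 1 t ≤ (1 / 2) * Real.log (4 * ‖ψ t 1‖ / (ψ t 1).re) := by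
  have hη : 0 < (ψ t 1).re := ψ_re ht (by simp)
  have hφ : φ t 0 = Ci (ψ t 1) := by unfold φ C; simp
  have hρ : 0 < ‖ψ t 1‖ := norm_pos_iff.2 (by intro h; rw [h] at hη; simp at hη)
  set ρ := ‖ψ t 1‖
  have hr : (ρ - 1) / (ρ + 1) ∈ Set.Ioo (-1 : ℝ) 1 := by
    constructor
    · rw [lt_div_iff₀ (by linarith)]; linarith
    · rw [div_lt_one (by linarith)]; linarith
  unfold tangentialSpeed
  have hbdd : BddBelow (Set.range fun r : Set.Ioo (-1 : ℝ) 1 => omega ((r : ℝ) * 1) (φ t 0)) := by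
    refine ⟨0, ?_⟩
    rintro _ ⟨r, rfl⟩
    refine omega_nonneg ?_ ?_
    · rw [mul_one, Complex.norm_real, Real.norm_eq_abs]
      exact abs_lt.2 r.2
    · rw [hφ]; exact Ci_norm hη
  refine (ciInf_le hbdd ⟨(ρ - 1) / (ρ + 1), hr⟩).trans ?_
  rw [hφ, mul_one]
  exact omega_le hη

theorem ratio_aux {x L δ s N R E : ℝ} (hL : 0 < L) (hx : 0 < x) (hLδ : L * δ = x)
    (hs : 2 / Real.pi * δ ≤ s) (hE : 0 < E) (hR : E * s / 2 ≤ R) (hN : N ≤ 2 * E) :
    4 * N * x ≤ 8 * Real.pi * L * R := by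
  have hpi := Real.pi_pos
  have h2 : 8 * Real.pi * L * (E * s / 2) ≤ 8 * Real.pi * L * R :=
    mul_le_mul_of_nonneg_left hR (by positivity)
  have h3 : 8 * Real.pi * L * (E * (2 / Real.pi * δ) / 2) ≤ 8 * Real.pi * L * (E * s / 2) := by
    gcongr
  have h4 : 8 * Real.pi * L * (E * (2 / Real.pi * δ) / 2) = 8 * E * x := by
    rw [← hLδ]; field_simp
  have h7 : 4 * N * x ≤ 8 * E * x := mul_le_mul_of_nonneg_right (by linarith) hx.le
  linarith

theorem aux16 {L a t : ℝ} (h : L ^ 2 ≤ a ^ 2 + 2 * t) (ht : 1 ≤ t) :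
    L ^ 2 ≤ (a ^ 2 + 2) * t := by
  nlinarith [sq_nonneg a, mul_nonneg (sq_nonneg a) (sub_nonneg.2 ht)]

theorem aux18 {t x Y D : ℝ} (h13 : (t * x) ^ 2 < Y) (h15 : Y ≤ D * x ^ 2 * t) :
    t * (t * x ^ 2) < t * (D * x ^ 2) := by
  have e1 : t * (t * x ^ 2) = (t * x) ^ 2 := by ring
  have e2 : t * (D * x ^ 2) = D * x ^ 2 * t := by ring
  rw [e1, e2]
  exact lt_of_lt_of_le h13 h15

theorem not_half_log :
    ¬ ∃ K : ℝ, 0 < K ∧ ∀ t : ℝ, 1 ≤ t → |tangentialSpeed φ 1 t - (1 / 2) * Real.log t| < K := by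
  rintro ⟨K, hK, h⟩
  have h1re : (0 : ℝ) < (1 : ℂ).re := by simp
  have hpi := Real.pi_pos
  have he := Real.exp_pos 1
  set a := (A 1).re with ha
  have ha1 : 1 < a := A_re h1re
  set x := a * (-(A 1).im) with hx
  have hx0 : 0 < x := mul_pos (by linarith) (by linarith [(A_im h1re).2])
  set M := 1 + x + 2 * Real.exp 1 * Real.pi / x with hM
  have hM0 : 0 < M := by positivity
  set D := 64 * Real.pi ^ 2 * (a ^ 2 + 2) * Real.exp (4 * K) / x ^ 2 with hD
  have hD0 : 0 < D := by positivity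
  set t := 1 + (M ^ 2 + Real.pi ^ 2) + D with ht
  have ht1 : 1 ≤ t := by
    have : 0 ≤ M ^ 2 + Real.pi ^ 2 := by positivity
    linarith
  have ht0 : 0 ≤ t := by linarith
  have hspeed := speed_le ht0
  have hlow := (abs_lt.1 (h t ht1)).1
  set L := (B t 1).re with hL
  set δ := -(B t 1).im with hδ
  have hL0 : 0 < L := B_re h1re
  have hδ0 : 0 < δ := by have := B_im (t := t) h1re; linarith
  have hLδ : L * δ = x := by
    have := B_mul (t := t) h1re
    rw [hδ, hx, mul_neg, mul_neg, this]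
  have hLM : M ≤ L := by
    have h2 := B_lower (t := t) h1re
    have h3 : M ^ 2 ≤ L ^ 2 := by
      refine le_trans ?_ h2
      rw [ht]
      nlinarith
    exact le_of_sq_le_sq h3 hL0.le
  have hLup : L ^ 2 ≤ a ^ 2 + 2 * t := B_upper ht0 h1re
  have hxL : x ≤ L := by
    refine le_trans ?_ hLM
    have : 0 ≤ 2 * Real.exp 1 * Real.pi / x := by positivity
    rw [hM]; linarith
  have hL1 : 1 ≤ L := by
    refine le_trans ?_ hLM
    have : 0 ≤ 2 * Real.exp 1 * Real.pi / x := by positivity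
    rw [hM]; linarith
  have hδ1 : δ ≤ 1 := by
    by_contra hcon
    push Not at hcon
    nlinarith
  have hδ2 : δ ≤ Real.pi / 2 := by linarith [Real.pi_gt_three]
  have h5 := exp_sin_lower hL0 hx0 hLδ hδ2
  have h6 : 2 * Real.exp 1 ≤ x / Real.pi * L := by
    have h7 : 2 * Real.exp 1 * Real.pi / x ≤ L := by
      refine le_trans ?_ hLM
      rw [hM]; linarith
    calc 2 * Real.exp 1 = x / Real.pi * (2 * Real.exp 1 * Real.pi / x) := by field_simp
      _ ≤ x / Real.pi * L := by gcongr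
  have hsin : 2 / Real.pi * δ ≤ Real.sin δ := Real.mul_le_sin hδ0.le hδ2
  have hsin0 : 0 < Real.sin δ := lt_of_lt_of_le (by positivity) hsin
  have hR : Real.exp L * Real.sin δ / 2 ≤ (ψ t 1).re := by
    have : (ψ t 1).re = Real.exp L * Real.sin δ - Real.exp 1 := by
      unfold ψ
      rw [re_I_exp]
    rw [this]
    linarith
  have hR0 : 0 < (ψ t 1).re := ψ_re ht0 h1re
  have hρ : ‖ψ t 1‖ ≤ 2 * Real.exp L := by
    have h2 := norm_ψ_upper t 1
    have h3 : Real.exp 1 ≤ Real.exp L := Real.exp_le_exp.2 hL1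
    linarith
  have hratio : 4 * ‖ψ t 1‖ / (ψ t 1).re ≤ 8 * Real.pi * L / x := by
    rw [div_le_div_iff₀ hR0 hx0]
    exact ratio_aux hL0 hx0 hLδ hsin (Real.exp_pos L) hR hρ
  have hratio0 : 0 < 4 * ‖ψ t 1‖ / (ψ t 1).re := by
    refine div_pos (mul_pos (by norm_num) (norm_pos_iff.2 ?_)) hR0
    intro h0; rw [h0] at hR0; simp at hR0
  have hlog : Real.log (4 * ‖ψ t 1‖ / (ψ t 1).re) ≤ Real.log (8 * Real.pi * L / x) :=
    Real.log_le_log hratio0 hratio
  have hfin : Real.log t - 2 * K < Real.log (8 * Real.pi * L / x) := by linarith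
  have htpos : 0 < t := by linarith
  have h8 : t * Real.exp (-(2 * K)) < 8 * Real.pi * L / x := by
    have h9 : Real.log (t * Real.exp (-(2 * K))) < Real.log (8 * Real.pi * L / x) := by
      rw [Real.log_mul htpos.ne' (Real.exp_pos _).ne', Real.log_exp]
      linarith
    exact (Real.log_lt_log_iff (by positivity) (by positivity)).1 h9
  have h10 : t * x < 8 * Real.pi * L * Real.exp (2 * K) := by
    rw [lt_div_iff₀ hx0] at h8
    have h11 : Real.exp (-(2 * K)) * Real.exp (2 * K) = 1 := by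
      rw [← Real.exp_add]; simp
    have h12 := mul_lt_mul_of_pos_right h8 (Real.exp_pos (2 * K))
    calc t * x = t * x * (Real.exp (-(2 * K)) * Real.exp (2 * K)) := by rw [h11, mul_one]
      _ = t * Real.exp (-(2 * K)) * x * Real.exp (2 * K) := by ring
      _ < _ := h12
  have h13 : (t * x) ^ 2 < (8 * Real.pi * L * Real.exp (2 * K)) ^ 2 :=
    pow_lt_pow_left₀ h10 (by positivity) (by norm_num)
  have h14 : Real.exp (2 * K) ^ 2 = Real.exp (4 * K) := by
    rw [← Real.exp_nat_mul]; congr 1; push_cast; ring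
  have h15 : (8 * Real.pi * L * Real.exp (2 * K)) ^ 2 ≤
      64 * Real.pi ^ 2 * (a ^ 2 + 2) * Real.exp (4 * K) * t := by
    have e : (8 * Real.pi * L * Real.exp (2 * K)) ^ 2 =
        64 * Real.pi ^ 2 * L ^ 2 * Real.exp (4 * K) := by rw [← h14]; ring
    rw [e]
    have h16 : L ^ 2 ≤ (a ^ 2 + 2) * t := aux16 hLup ht1
    calc 64 * Real.pi ^ 2 * L ^ 2 * Real.exp (4 * K)
        ≤ 64 * Real.pi ^ 2 * ((a ^ 2 + 2) * t) * Real.exp (4 * K) := by gcongr
      _ = _ := by ring
  have h17 : D * x ^ 2 = 64 * Real.pi ^ 2 * (a ^ 2 + 2) * Real.exp (4 * K) := by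
    rw [hD]; field_simp
  rw [← h17] at h15
  have h18 : t * (t * x ^ 2) < t * (D * x ^ 2) := aux18 h13 h15
  have h19 : t * x ^ 2 < D * x ^ 2 := lt_of_mul_lt_mul_left h18 htpos.le
  have h20 : t < D := lt_of_mul_lt_mul_right h19 (by positivity)
  have h21 : D < t := by
    rw [ht]
    have : 0 ≤ M ^ 2 + Real.pi ^ 2 := by positivity
    linarith
  linarith

end Pool.Agent.X183.Tang
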