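import Pool.Agent.X183.Tang.Defs

/-!
# The semigroup in the right half-plane
-/

set_option autoImplicit false

open Filter Topology Metric Complex

namespace Pool.Agent.X183.Tang

/-- The square root. -/
noncomputable def rt (S : ℂ) : ℂ := exp (log S / 2)

theorem rt_sq {S : ℂ} (hS : S ≠ 0) : rt S ^ 2 = S := by
  unfold rt
  rw [← Complex.exp_nat_mul]
  rw [show ((2 : ℕ) : ℂ) * (log S / 2) = log S by push_cast; ring]
  exact exp_log hS

theorem arg_neg_of_im {S : ℂ} (hS : S.im < 0) : S.arg < 0 := Complex.arg_neg_iff.2 hS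

theorem rt_re {S : ℂ} (hS : S.im < 0) : 0 < (rt S).re := by
  unfold rt
  rw [Complex.exp_re]
  refine mul_pos (Real.exp_pos _) ?_
  have h1 : (log S / 2).im = S.arg / 2 := by
    rw [show (log S / 2) = log S / ((2 : ℝ) : ℂ) by norm_num, Complex.div_ofReal_im, Complex.log_im]
  rw [h1]
  apply Real.cos_pos_of_mem_Ioo
  have h2 := Complex.neg_pi_lt_arg S
  have h3 := arg_neg_of_im hS
  constructor <;> linarith [Real.pi_pos]

theorem rt_im {S : ℂ} (hS : S.im < 0) : (rt S).im < 0 := by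
  unfold rt
  rw [Complex.exp_im]
  refine mul_neg_of_pos_of_neg (Real.exp_pos _) ?_
  have h1 : (log S / 2).im = S.arg / 2 := by
    rw [show (log S / 2) = log S / ((2 : ℝ) : ℂ) by norm_num, Complex.div_ofReal_im, Complex.log_im]
  rw [h1]
  have h2 := Complex.neg_pi_lt_arg S
  have h3 := arg_neg_of_im hS
  apply Real.sin_neg_of_neg_of_neg_pi_lt <;> linarith [Real.pi_pos]

theorem sqrt_unique {b x : ℂ} (h : b ^ 2 = x ^ 2) (hb : 0 < b.re) (hx : 0 < x.re) : b = x := by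
  have h1 : (b - x) * (b + x) = 0 := by linear_combination h
  rcases mul_eq_zero.1 h1 with h2 | h2
  · exact sub_eq_zero.1 h2
  · exfalso
    have h3 : (b + x).re = 0 := by rw [h2]; rfl
    rw [Complex.add_re] at h3
    linarith

/-- `A(η) = log(η+e) - iπ/2`. -/
noncomputable def A (η : ℂ) : ℂ := log (η + Real.exp 1) - Real.pi / 2 * I

theorem shift_re {η : ℂ} (hη : 0 < η.re) : Real.exp 1 < (η + Real.exp 1).re := by
  simp only [add_re, ofReal_re]; linarith

theorem shift_ne {η : ℂ} (hη : 0 < η.re) : (η + Real.exp 1 : ℂ) ≠ 0 := by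
  intro h
  have := shift_re hη
  rw [h] at this
  have h2 := Real.exp_pos 1
  simp at this
  linarith

theorem exp_A {η : ℂ} (hη : 0 < η.re) : I * exp (A η) = η + Real.exp 1 := by
  unfold A
  rw [Complex.exp_sub, exp_log (shift_ne hη)]
  have : exp ((Real.pi : ℂ) / 2 * I) = I := by
    exact Complex.exp_pi_div_two_mul_I
  rw [this]
  field_simp

theorem A_re {η : ℂ} (hη : 0 < η.re) : 1 < (A η).re := by
  unfold A
  have h1 : (((Real.pi : ℂ) / 2 * I)).re = 0 := by simp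
  rw [sub_re, h1, sub_zero, Complex.log_re]
  rw [Real.lt_log_iff_exp_lt (norm_pos_iff.2 (shift_ne hη))]
  exact lt_of_lt_of_le (shift_re hη) (Complex.re_le_norm _)

theorem A_im {η : ℂ} (hη : 0 < η.re) : -Real.pi < (A η).im ∧ (A η).im < 0 := by
  unfold A
  have h1 : (((Real.pi : ℂ) / 2 * I)).im = Real.pi / 2 := by
    simp
  have h0 : 0 < (η + Real.exp 1 : ℂ).re := lt_trans (Real.exp_pos 1) (shift_re hη)
  have h2 := Complex.abs_arg_lt_pi_div_two_iff.2 (Or.inl h0)
  rw [sub_im, h1, Complex.log_im]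
  have h3 := abs_lt.1 h2
  constructor <;> linarith [h3.1, h3.2]

/-- `A` inverts `b ↦ i e^b - e`. -/
theorem A_of_exp {b : ℂ} (h1 : -Real.pi < b.im) (h2 : b.im < 0) :
    A (I * exp b - Real.exp 1) = b := by
  unfold A
  rw [sub_add_cancel]
  have h3 : I * exp b = exp (b + Real.pi / 2 * I) := by
    rw [Complex.exp_add, Complex.exp_pi_div_two_mul_I]; ring
  have h4 : (((Real.pi : ℂ) / 2 * I)).im = Real.pi / 2 := by simp
  rw [h3, Complex.log_exp]
  · ring
  · rw [add_im, h4]; linarith [Real.pi_pos]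
  · rw [add_im, h4]; linarith [Real.pi_pos]

theorem re_I_exp (b : ℂ) : (I * exp b - Real.exp 1).re = Real.exp b.re * Real.sin (-b.im) - Real.exp 1 := by
  rw [sub_re, ofReal_re, Complex.mul_re, Complex.exp_re, Complex.exp_im]
  simp [Real.sin_neg]

theorem re_eta {η : ℂ} (hη : 0 < η.re) :
    Real.exp (A η).re * Real.sin (-(A η).im) = η.re + Real.exp 1 := by
  have h1 := re_I_exp (A η)
  rw [exp_A hη, add_sub_cancel_right] at h1
  linarith

/-- The radicand. -/
noncomputable def S (t : ℝ) (η : ℂ) : ℂ := A η ^ 2 + 2 * t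

theorem S_im {t : ℝ} {η : ℂ} (hη : 0 < η.re) : (S t η).im < 0 := by
  unfold S
  have h1 := A_re hη
  have h2 := (A_im hη).2
  have : (A η ^ 2 + 2 * (t : ℂ)).im = 2 * ((A η).re * (A η).im) := by
    simp [pow_two]; ring
  rw [this]
  nlinarith

/-- `B_t(η) = √(A(η)² + 2t)`. -/
noncomputable def B (t : ℝ) (η : ℂ) : ℂ := rt (S t η)

theorem B_sq {t : ℝ} {η : ℂ} (hη : 0 < η.re) : B t η ^ 2 = A η ^ 2 + 2 * t := by
  unfold B
  rw [rt_sq]
  · rfl
  · intro h
    have := S_im (t := t) hη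
    rw [h] at this
    simp at this

theorem B_re {t : ℝ} {η : ℂ} (hη : 0 < η.re) : 0 < (B t η).re := rt_re (S_im hη)

theorem B_im {t : ℝ} {η : ℂ} (hη : 0 < η.re) : (B t η).im < 0 := rt_im (S_im hη)

theorem B_mul {t : ℝ} {η : ℂ} (hη : 0 < η.re) :
    (B t η).re * (B t η).im = (A η).re * (A η).im := by
  have h := congrArg Complex.im (B_sq (t := t) hη)
  simp [pow_two] at h
  linarith

theorem B_diff {t : ℝ} {η : ℂ} (hη : 0 < η.re) :
    (B t η).re ^ 2 - (B t η).im ^ 2 = (A η).re ^ 2 - (A η).im ^ 2 + 2 * t := by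
  have h := congrArg Complex.re (B_sq (t := t) hη)
  simp [pow_two] at h
  linarith

theorem B_ge {t : ℝ} (ht : 0 ≤ t) {η : ℂ} (hη : 0 < η.re) : (A η).re ≤ (B t η).re := by
  have h1 := B_mul (t := t) hη
  have h2 := B_diff (t := t) hη
  have h3 := B_re (t := t) hη
  have h4 := A_re hη
  by_contra hcon
  push Not at hcon
  set L := (B t η).re
  set a := (A η).re
  set d := (B t η).im
  set e := (A η).im
  have h5 : L ^ 2 < a ^ 2 := by nlinarith
  -- d² ≥ e²: L² d² = a² e²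
  have h6 : L ^ 2 * d ^ 2 = a ^ 2 * e ^ 2 := by
    have : (L * d) ^ 2 = (a * e) ^ 2 := by rw [h1]
    linarith [mul_pow L d 2, mul_pow a e 2]
  have h7 : e ^ 2 ≤ d ^ 2 := by
    have h8 : L ^ 2 * e ^ 2 ≤ L ^ 2 * d ^ 2 := by
      rw [h6]; nlinarith [sq_nonneg e]
    exact le_of_mul_le_mul_left h8 (by positivity)
  linarith

theorem B_im_ge {t : ℝ} (ht : 0 ≤ t) {η : ℂ} (hη : 0 < η.re) : (A η).im ≤ (B t η).im := by
  have h1 := B_mul (t := t) hη
  have h2 := B_ge ht hη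
  have h3 := A_re hη
  have h4 := B_im (t := t) hη
  by_contra hcon
  push Not at hcon
  nlinarith

/-- The key inequality. -/
theorem key {a δ L δ' : ℝ} (ha : 1 ≤ a) (hδ' : 0 < δ') (hle : δ' ≤ δ) (hδ : δ < Real.pi)
    (hL : L * δ' = a * δ) : Real.exp a * Real.sin δ ≤ Real.exp L * Real.sin δ' := by
  have hδ0 : 0 < δ := hδ'.trans_le hle
  -- sin δ / δ ≤ sin δ' / δ'
  have h1 : δ' / δ * Real.sin δ ≤ Real.sin δ' := by
    have hc := strictConcaveOn_sin_Icc.concaveOn.2
      (show (0 : ℝ) ∈ Set.Icc 0 Real.pi from ⟨le_rfl, Real.pi_pos.le⟩)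
      (show δ ∈ Set.Icc 0 Real.pi from ⟨hδ0.le, hδ.le⟩)
      (show 0 ≤ 1 - δ' / δ by rw [sub_nonneg, div_le_one hδ0]; exact hle)
      (show 0 ≤ δ' / δ by positivity) (by ring)
    simp only [smul_eq_mul, Real.sin_zero, mul_zero, zero_add] at hc
    rwa [div_mul_cancel₀ _ hδ0.ne'] at hc
  have h2 : L - a = a * ((δ - δ') / δ') := by
    field_simp
    linarith
  have h3 : δ / δ' ≤ Real.exp (L - a) := by
    have h4 : (δ - δ') / δ' ≤ L - a := by
      rw [h2]
      have : 0 ≤ (δ - δ') / δ' := div_nonneg (by linarith) hδ'.le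
      nlinarith
    have h5 := Real.add_one_le_exp (L - a)
    have h6 : (δ - δ') / δ' = δ / δ' - 1 := by field_simp
    linarith
  have hs : 0 ≤ Real.sin δ := Real.sin_nonneg_of_nonneg_of_le_pi hδ0.le hδ.le
  have h7 : Real.exp L = Real.exp a * Real.exp (L - a) := by rw [← Real.exp_add]; congr 1; ring
  rw [h7]
  calc Real.exp a * Real.sin δ = Real.exp a * (δ / δ') * (δ' / δ * Real.sin δ) := by
        field_simp
    _ ≤ Real.exp a * Real.exp (L - a) * Real.sin δ' := by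
        apply mul_le_mul _ h1 (by positivity) (by positivity)
        exact mul_le_mul_of_nonneg_left h3 (Real.exp_pos a).le

/-- The semigroup in the half-plane. -/
noncomputable def ψ (t : ℝ) (η : ℂ) : ℂ := I * exp (B t η) - Real.exp 1

theorem ψ_re {t : ℝ} (ht : 0 ≤ t) {η : ℂ} (hη : 0 < η.re) : 0 < (ψ t η).re := by
  unfold ψ
  rw [re_I_exp]
  have h1 := key (A_re hη).le (neg_pos.2 (B_im (t := t) hη)) (neg_le_neg (B_im_ge ht hη))
    (by linarith [(A_im hη).1]) (L := (B t η).re) (by linarith [B_mul (t := t) hη])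
  rw [re_eta hη] at h1
  linarith

theorem B_im_gt {t : ℝ} (ht : 0 ≤ t) {η : ℂ} (hη : 0 < η.re) : -Real.pi < (B t η).im :=
  lt_of_lt_of_le (A_im hη).1 (B_im_ge ht hη)

theorem A_ψ {t : ℝ} (ht : 0 ≤ t) {η : ℂ} (hη : 0 < η.re) : A (ψ t η) = B t η :=
  A_of_exp (B_im_gt ht hη) (B_im hη)

theorem ψ_zero {η : ℂ} (hη : 0 < η.re) : ψ 0 η = η := by
  have h1 : B 0 η = A η := by
    refine sqrt_unique ?_ (B_re hη) (by linarith [A_re hη])
    rw [B_sq hη]; simp
  unfold ψ
  rw [h1, exp_A hη, add_sub_cancel_right]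

theorem ψ_add {s t : ℝ} (hs : 0 ≤ s) {η : ℂ} (hη : 0 < η.re) :
    ψ (t + s) η = ψ t (ψ s η) := by
  have h1 : B (t + s) η = B t (ψ s η) := by
    refine sqrt_unique ?_ (B_re hη) (B_re (ψ_re hs hη))
    rw [B_sq hη, B_sq (ψ_re hs hη), A_ψ hs hη, B_sq hη]
    push_cast; ring
  unfold ψ at h1 ⊢
  rw [h1]

/-- The Koenigs function. -/
noncomputable def h0 (η : ℂ) : ℂ := I / 2 * A η ^ 2

theorem h0_ψ {t : ℝ} (ht : 0 ≤ t) {η : ℂ} (hη : 0 < η.re) : h0 (ψ t η) = h0 η + I * t := by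
  unfold h0
  rw [A_ψ ht hη, B_sq hη]
  ring

theorem h0_re {η : ℂ} (_hη : 0 < η.re) : (h0 η).re = (A η).re * (-(A η).im) := by
  simp [h0, pow_two]
  ring

theorem h0_inj {η η' : ℂ} (hη : 0 < η.re) (hη' : 0 < η'.re) (h : h0 η = h0 η') : η = η' := by
  unfold h0 at h
  have h1 : A η ^ 2 = A η' ^ 2 := by
    have hI : (I / 2 : ℂ) ≠ 0 := by simp [I_ne_zero]
    exact mul_left_cancel₀ hI h
  have h2 := sqrt_unique h1 (by linarith [A_re hη]) (by linarith [A_re hη'])
  have h3 := exp_A hη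
  have h4 := exp_A hη'
  rw [h2, h4] at h3
  exact (add_right_cancel h3).symm

theorem differentiableAt_A {η : ℂ} (hη : 0 < η.re) : DifferentiableAt ℂ A η := by
  unfold A
  refine DifferentiableAt.sub_const ?_ _
  refine DifferentiableAt.clog (by fun_prop) ?_
  left
  exact lt_trans (Real.exp_pos 1) (shift_re hη)

theorem continuousAt_ψ {t : ℝ} {η : ℂ} (hη : 0 < η.re) :
    ContinuousAt (fun p : ℝ × ℂ => ψ p.1 p.2) (t, η) := by
  unfold ψ B rt S
  have h1 : ContinuousAt (fun p : ℝ × ℂ => A p.2 ^ 2 + 2 * (p.1 : ℂ)) (t, η) := by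
    have := (differentiableAt_A hη).continuousAt
    have h2 : ContinuousAt (fun p : ℝ × ℂ => A p.2) (t, η) :=
      ContinuousAt.comp (f := fun p : ℝ × ℂ => p.2) (g := A) this continuousAt_snd
    refine (h2.pow 2).add ?_
    fun_prop
  have h3 : ContinuousAt (fun p : ℝ × ℂ => log (A p.2 ^ 2 + 2 * (p.1 : ℂ))) (t, η) := by
    refine h1.clog ?_
    right
    exact (S_im (t := t) hη).ne
  exact (((h3.div_const 2).cexp.cexp).const_mul I).sub continuousAt_const

theorem differentiableAt_ψ {t : ℝ} {η : ℂ} (hη : 0 < η.re) : DifferentiableAt ℂ (ψ t) η := by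
  unfold ψ B rt S
  have h1 := differentiableAt_A hη
  have h3 : DifferentiableAt ℂ (fun η => log (A η ^ 2 + 2 * (t : ℂ))) η := by
    refine DifferentiableAt.clog ((h1.pow 2).add_const _) ?_
    right
    exact (S_im (t := t) hη).ne
  exact (((h3.div_const 2).cexp.cexp).const_mul I).sub_const _

/-! ### Asymptotics -/

theorem B_lower {t : ℝ} {η : ℂ} (hη : 0 < η.re) : 2 * t - Real.pi ^ 2 ≤ (B t η).re ^ 2 := by
  have h1 := B_diff (t := t) hη
  have h2 := (A_im hη).1
  have h3 := (A_im hη).2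
  nlinarith [sq_nonneg (B t η).im, sq_nonneg (A η).re, Real.pi_pos]

theorem B_upper {t : ℝ} (ht : 0 ≤ t) {η : ℂ} (hη : 0 < η.re) :
    (B t η).re ^ 2 ≤ (A η).re ^ 2 + 2 * t := by
  have h1 := B_diff (t := t) hη
  have h2 := B_im_ge ht hη
  have h3 := B_im (t := t) hη
  nlinarith

/-- `e^L sin(x/L) ≥ (x/π) L`. -/
theorem exp_sin_lower {x L δ : ℝ} (hL : 0 < L) (hx : 0 < x) (hδ : L * δ = x)
    (hδ2 : δ ≤ Real.pi / 2) : x / Real.pi * L ≤ Real.exp L * Real.sin δ := by
  have hδ0 : 0 < δ := by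
    by_contra hcon
    push Not at hcon
    nlinarith
  have h1 : 2 / Real.pi * δ ≤ Real.sin δ := Real.mul_le_sin hδ0.le hδ2
  have h2 : L ^ 2 / 2 ≤ Real.exp L := by
    have := Real.quadratic_le_exp_of_nonneg hL.le
    linarith
  have hpi := Real.pi_pos
  calc x / Real.pi * L = L ^ 2 / 2 * (2 / Real.pi * δ) := by
        rw [← hδ]; field_simp
    _ ≤ Real.exp L * Real.sin δ := mul_le_mul h2 h1 (by positivity) (Real.exp_pos _).le

end Pool.Agent.X183.Tang
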